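import Mathlib

set_option autoImplicit false

namespace Pool.Agent.Results.MP_401231_co.EvenSubdivB1VPG

/-- `G'` is (via the given data) an even subdivision of `G`: the edge `uv` of `G` is replaced by a
path `pos u v 0 = vert u, pos u v 1, …, pos u v (m u v + 1) = vert v` whose `m u v` internal
vertices are new; `m u v` is even (zero is allowed, and it may differ from edge to edge). -/
structure EvenSubdivision {V V' : Type*} (G : SimpleGraph V) (G' : SimpleGraph V') where
  /-- the copy in `G'` of a vertex of `G` -/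
  vert : V → V'
  /-- the number of new internal vertices on the edge `uv` -/
  m : V → V → ℕ
  /-- `pos u v i` is the `i`-th vertex of the path from `vert u` to `vert v` replacing `uv` -/
  pos : V → V → ℕ → V'
  vert_inj : Function.Injective vert
  even_m : ∀ u v, G.Adj u v → Even (m u v)
  pos_zero : ∀ u v, G.Adj u v → pos u v 0 = vert u
  pos_last : ∀ u v, G.Adj u v → pos u v (m u v + 1) = vert v
  /-- the path for `vu` is the path for `uv` run backwards -/
  m_symm : ∀ u v, G.Adj u v → m v u = m u v
  pos_symm : ∀ u v i, G.Adj u v → i ≤ m u v + 1 → pos v u (m u v + 1 - i) = pos u v i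
  /-- internal vertices are not copies of vertices of `G` -/
  new_ne_old : ∀ u v i w, G.Adj u v → 1 ≤ i → i ≤ m u v → pos u v i ≠ vert w
  /-- internal vertices are distinct from each other -/
  new_inj : ∀ u v i x y j, G.Adj u v → G.Adj x y → 1 ≤ i → i ≤ m u v → 1 ≤ j → j ≤ m x y →
    pos u v i = pos x y j → (x = u ∧ y = v ∧ j = i) ∨ (x = v ∧ y = u ∧ j = m u v + 1 - i)
  /-- there are no other vertices -/
  covers : ∀ z, (∃ w, z = vert w) ∨ ∃ u v i, G.Adj u v ∧ 1 ≤ i ∧ i ≤ m u v ∧ z = pos u v i
  /-- the edges of `G'` are exactly the edges of these paths -/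
  adj_iff : ∀ a b, G'.Adj a b ↔
    ∃ u v i, G.Adj u v ∧ i ≤ m u v ∧ a = pos u v i ∧ b = pos u v (i + 1)

/-- A path in the grid `ℤ²` with at most one bend: it consists of the horizontal grid path
between `(x, y)` and `(x', y)` and the vertical grid path between `(x, y)` and `(x, y')`
(the bend, if there is one, is at `(x, y)`; one of the two parts may be trivial, not both). -/
structure OneBendPath where
  x : ℤ
  y : ℤ
  x' : ℤ
  y' : ℤ
  nontrivial : x' ≠ x ∨ y' ≠ y

/-- The grid points of the path. -/
def OneBendPath.carrier (P : OneBendPath) : Set (ℤ × ℤ) :=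
  {p | p.2 = P.y ∧ p.1 ∈ Set.uIcc P.x P.x'} ∪ {p | p.1 = P.x ∧ p.2 ∈ Set.uIcc P.y P.y'}

/-- `H` is a `B₁`-VPG-graph: the vertices can be assigned grid paths with at most one bend so that
two distinct vertices are adjacent exactly when their paths share a grid point. -/
def IsB1VPG {V : Type*} (H : SimpleGraph V) : Prop :=
  ∃ P : V → OneBendPath, ∀ a b, a ≠ b →
    (H.Adj a b ↔ ((P a).carrier ∩ (P b).carrier).Nonempty)

/-! ### The 4-subdivision of a graph -/

/-- vertices of the 4-subdivision: `old u`, and for each ordered adjacent pair the new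
vertices `near u v` (next to `u` on the edge `uv`) and `mid u v` (second from `u`) -/
inductive SubV {V : Type} (G : SimpleGraph V) : Type
  | old (u : V) : SubV G
  | near (u v : V) (h : G.Adj u v) : SubV G
  | mid (u v : V) (h : G.Adj u v) : SubV G

/-- adjacency in the 4-subdivision -/
inductive SubAdj {V : Type} (G : SimpleGraph V) : SubV G → SubV G → Prop
  | on (u v : V) (h : G.Adj u v) : SubAdj G (.old u) (.near u v h)
  | no (u v : V) (h : G.Adj u v) : SubAdj G (.near u v h) (.old u)
  | nm (u v : V) (h : G.Adj u v) : SubAdj G (.near u v h) (.mid u v h)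
  | mn (u v : V) (h : G.Adj u v) : SubAdj G (.mid u v h) (.near u v h)
  | mm (u v : V) (h : G.Adj u v) : SubAdj G (.mid u v h) (.mid v u h.symm)

/-- the 4-subdivision -/
def Sub4 {V : Type} (G : SimpleGraph V) : SimpleGraph (SubV G) where
  Adj := SubAdj G
  symm := ⟨by
    rintro a b (⟨u, v, h⟩ | ⟨u, v, h⟩ | ⟨u, v, h⟩ | ⟨u, v, h⟩ | ⟨u, v, h⟩)
    · exact .no u v h
    · exact .on u v h
    · exact .mn u v h
    · exact .nm u v h
    · exact .mm v u h.symm⟩
  loopless := ⟨by
    intro a h
    cases h with
    | mm u v h => exact G.loopless.irrefl _ h⟩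

open Classical in
/-- positions along the path replacing `uv` -/
noncomputable def pos4 {V : Type} (G : SimpleGraph V) (u v : V) (i : ℕ) : SubV G :=
  if h : G.Adj u v then
    match i with
    | 0 => .old u
    | 1 => .near u v h
    | 2 => .mid u v h
    | 3 => .mid v u h.symm
    | 4 => .near v u h.symm
    | _ => .old v
  else .old u

section

variable {V : Type} {G : SimpleGraph V} {u v : V}

lemma pos4_0 (h : G.Adj u v) : pos4 G u v 0 = .old u := by simp [pos4, h]
lemma pos4_1 (h : G.Adj u v) : pos4 G u v 1 = .near u v h := by simp [pos4, h]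
lemma pos4_2 (h : G.Adj u v) : pos4 G u v 2 = .mid u v h := by simp [pos4, h]
lemma pos4_3 (h : G.Adj u v) : pos4 G u v 3 = .mid v u h.symm := by simp [pos4, h]
lemma pos4_4 (h : G.Adj u v) : pos4 G u v 4 = .near v u h.symm := by simp [pos4, h]
lemma pos4_5 (h : G.Adj u v) : pos4 G u v 5 = .old v := by simp [pos4, h]

end

/-- the 4-subdivision is an even subdivision -/
noncomputable def sub4Even {V : Type} (G : SimpleGraph V) : EvenSubdivision G (Sub4 G) where
  vert := .old
  m := fun _ _ => 4
  pos := pos4 G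
  vert_inj := by intro u v h; cases h; rfl
  even_m := by intro u v _; decide
  pos_zero := by intro u v h; exact pos4_0 h
  pos_last := by intro u v h; exact pos4_5 h
  m_symm := by intro u v _; rfl
  pos_symm := by
    intro u v i h hi
    have hi' : i = 0 ∨ i = 1 ∨ i = 2 ∨ i = 3 ∨ i = 4 ∨ i = 5 := by omega
    rcases hi' with rfl | rfl | rfl | rfl | rfl | rfl
    · rw [pos4_0 h]; exact pos4_5 h.symm
    · rw [pos4_1 h]; exact pos4_4 h.symm
    · rw [pos4_2 h]; exact pos4_3 h.symm
    · rw [pos4_3 h]; exact pos4_2 h.symm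
    · rw [pos4_4 h]; exact pos4_1 h.symm
    · rw [pos4_5 h]; exact pos4_0 h.symm
  new_ne_old := by
    intro u v i w h h1 h2
    have hi' : i = 1 ∨ i = 2 ∨ i = 3 ∨ i = 4 := by omega
    rcases hi' with rfl | rfl | rfl | rfl
    · rw [pos4_1 h]; intro hc; cases hc
    · rw [pos4_2 h]; intro hc; cases hc
    · rw [pos4_3 h]; intro hc; cases hc
    · rw [pos4_4 h]; intro hc; cases hc
  new_inj := by
    intro u v i x y j h h' hi1 hi2 hj1 hj2
    have hi' : i = 1 ∨ i = 2 ∨ i = 3 ∨ i = 4 := by omega
    have hj' : j = 1 ∨ j = 2 ∨ j = 3 ∨ j = 4 := by omega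
    rcases hi' with rfl | rfl | rfl | rfl <;> rcases hj' with rfl | rfl | rfl | rfl <;>
      simp only [pos4_1 h, pos4_2 h, pos4_3 h, pos4_4 h, pos4_1 h', pos4_2 h', pos4_3 h',
        pos4_4 h'] <;> intro hc <;> cases hc <;> simp
  covers := by
    intro z
    cases z with
    | old u => exact Or.inl ⟨u, rfl⟩
    | near u v h => exact Or.inr ⟨u, v, 1, h, le_rfl, by norm_num, (pos4_1 h).symm⟩
    | mid u v h => exact Or.inr ⟨u, v, 2, h, by norm_num, by norm_num, (pos4_2 h).symm⟩
  adj_iff := by
    intro a b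
    constructor
    · intro hab
      have h' : SubAdj G a b := hab
      clear hab
      cases h' with
      | on u v h => exact ⟨u, v, 0, h, by norm_num, (pos4_0 h).symm, (pos4_1 h).symm⟩
      | no u v h =>
        exact ⟨v, u, 4, h.symm, le_rfl, (pos4_4 h.symm).symm, (pos4_5 h.symm).symm⟩
      | nm u v h => exact ⟨u, v, 1, h, by norm_num, (pos4_1 h).symm, (pos4_2 h).symm⟩
      | mn u v h =>
        exact ⟨v, u, 3, h.symm, by norm_num, (pos4_3 h.symm).symm, (pos4_4 h.symm).symm⟩
      | mm u v h => exact ⟨u, v, 2, h, by norm_num, (pos4_2 h).symm, (pos4_3 h).symm⟩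
    · rintro ⟨u, v, i, h, hi, rfl, rfl⟩
      have hi' : i = 0 ∨ i = 1 ∨ i = 2 ∨ i = 3 ∨ i = 4 := by omega
      show SubAdj G _ _
      rcases hi' with rfl | rfl | rfl | rfl | rfl
      · rw [pos4_0 h, pos4_1 h]; exact .on u v h
      · rw [pos4_1 h, pos4_2 h]; exact .nm u v h
      · rw [pos4_2 h, pos4_3 h]; exact .mm u v h
      · rw [pos4_3 h, pos4_4 h]; exact .mn v u h.symm
      · rw [pos4_4 h, pos4_5 h]; exact .no v u h.symm

lemma EvenSubdivision.finite {V V' : Type*} {G : SimpleGraph V} {G' : SimpleGraph V'} [Finite V]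
    (E : EvenSubdivision G G') : Finite V' := by
  have : (Set.univ : Set V') ⊆
      Set.range E.vert ∪ ⋃ p : V × V, (E.pos p.1 p.2) '' Set.Iic (E.m p.1 p.2) := by
    intro z _
    rcases E.covers z with ⟨w, rfl⟩ | ⟨u, v, i, _, _, hi, rfl⟩
    · exact Or.inl ⟨w, rfl⟩
    · exact Or.inr (Set.mem_iUnion.2 ⟨(u, v), ⟨i, hi, rfl⟩⟩)
  have hfin : (Set.range E.vert ∪ ⋃ p : V × V, (E.pos p.1 p.2) '' Set.Iic (E.m p.1 p.2)).Finite := by
    apply Set.Finite.union (Set.finite_range _)
    apply Set.finite_iUnion
    intro p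
    exact (Set.finite_Iic _).image _
  exact Set.finite_univ_iff.1 (hfin.subset this)

/-! ### Geometry -/

lemma mem_uIcc {a b c : ℤ} : a ∈ Set.uIcc b c ↔ (b ≤ a ∧ a ≤ c) ∨ (c ≤ a ∧ a ≤ b) :=
  Set.mem_uIcc

/-- two shapes with bend bottom left -/
lemma meetLL {P Q : OneBendPath} {α β M : ℤ} (hP : P.x = α ∧ P.y = -α ∧ P.x' = M ∧ P.y' = M)
    (hQ : Q.x = β ∧ Q.y = -β ∧ Q.x' = M ∧ Q.y' = M) (h0 : 0 ≤ α) (h : α < β) (hM : β ≤ M) :
    (P.carrier ∩ Q.carrier).Nonempty := by
  obtain ⟨p1, p2, p3, p4⟩ := hP
  obtain ⟨q1, q2, q3, q4⟩ := hQ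
  refine ⟨(β, -α), Or.inl ⟨p2.symm, ?_⟩, Or.inr ⟨q1.symm, ?_⟩⟩
  · rw [mem_uIcc]; left; constructor <;> simp only <;> omega
  · rw [mem_uIcc]; left; constructor <;> simp only <;> omega

/-- bend bottom left against bend top right -/
lemma meetLG {P Q : OneBendPath} {α M X Y L D : ℤ}
    (hP : P.x = α ∧ P.y = -α ∧ P.x' = M ∧ P.y' = M)
    (hQ : Q.x = X ∧ Q.y = Y ∧ Q.x' = L ∧ Q.y' = D) (h0 : 0 ≤ α) (h1 : α < X) (h2 : X ≤ M)
    (h3 : 0 < Y) (h4 : Y ≤ M) (h6 : D ≤ Y) :
    (P.carrier ∩ Q.carrier).Nonempty ↔ (D ≤ -α ∨ L ≤ α) := by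
  obtain ⟨p1, p2, p3, p4⟩ := hP
  obtain ⟨q1, q2, q3, q4⟩ := hQ
  constructor
  · rintro ⟨⟨a, b⟩, hp, hq⟩
    rcases hp with ⟨e1, e2⟩ | ⟨e1, e2⟩ <;> rcases hq with ⟨f1, f2⟩ | ⟨f1, f2⟩ <;>
      rw [mem_uIcc] at e2 f2 <;> simp only at e1 e2 f1 f2 <;> omega
  · rintro (h | h)
    · refine ⟨(X, -α), Or.inl ⟨p2.symm, ?_⟩, Or.inr ⟨q1.symm, ?_⟩⟩
      · rw [mem_uIcc]; left; constructor <;> simp only <;> omega
      · rw [mem_uIcc]; right; constructor <;> simp only <;> omega
    · refine ⟨(α, Y), Or.inr ⟨p1.symm, ?_⟩, Or.inl ⟨q2.symm, ?_⟩⟩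
      · rw [mem_uIcc]; left; constructor <;> simp only <;> omega
      · rw [mem_uIcc]; right; constructor <;> simp only <;> omega

/-- two shapes with bend top right, in decreasing position -/
lemma meetGG {P Q : OneBendPath} (h1 : P.x < Q.x) (h2 : Q.y < P.y) (h3 : Q.x' ≤ P.x)
    (h4 : P.y' ≤ Q.y) : (P.carrier ∩ Q.carrier).Nonempty := by
  refine ⟨(P.x, Q.y), Or.inr ⟨rfl, ?_⟩, Or.inl ⟨rfl, ?_⟩⟩
  · rw [mem_uIcc]; right; constructor <;> simp only <;> omega
  · rw [mem_uIcc]; right; constructor <;> simp only <;> omega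

/-- two shapes with bend top right, one corner dominating the other -/
lemma disjGG {P Q : OneBendPath} (h1 : P.x < Q.x) (h2 : P.y < Q.y) (h3 : P.x' ≤ P.x)
    (h4 : P.y' ≤ P.y) : ¬ (P.carrier ∩ Q.carrier).Nonempty := by
  rintro ⟨⟨a, b⟩, hp, hq⟩
  rcases hp with ⟨e1, e2⟩ | ⟨e1, e2⟩ <;> rcases hq with ⟨f1, f2⟩ | ⟨f1, f2⟩ <;>
    rw [mem_uIcc] at e2 <;> simp only at e1 e2 f1 f2 <;> omega

/-! ### The representation -/

lemma lexlt {n i j i' j' : ℤ} (hj : 0 ≤ j) (hjn : j < n) (hj' : 0 ≤ j') (h : i < i') :
    n * i + j < n * i' + j' := by nlinarith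

lemma blk {n i : ℤ} (h0 : 0 ≤ i) (h : i < n) : n * i + n ≤ n * n := by nlinarith

section Rep

variable {V : Type} {G : SimpleGraph V} (n : ℤ) (idx : V → ℤ)

/-- code of an ordered pair of vertices -/
def code (u v : V) : ℤ := n * idx u + idx v

variable {n idx}

lemma code_nonneg (h0 : ∀ v, 0 ≤ idx v) (hn : ∀ v, idx v < n) (u v : V) :
    0 ≤ code n idx u v := by
  have h1 := h0 u
  have h2 := h0 v
  have h3 := hn u
  unfold code
  nlinarith

lemma code_lt (h0 : ∀ v, 0 ≤ idx v) (hn : ∀ v, idx v < n) (u v : V) :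
    code n idx u v < n * n := by
  have h1 := blk (h0 u) (hn u)
  have h2 := hn v
  unfold code
  omega

lemma code_inj (h0 : ∀ v, 0 ≤ idx v) (hn : ∀ v, idx v < n) (hinj : Function.Injective idx)
    {u v x y : V} (h : code n idx u v = code n idx x y) : u = x ∧ v = y := by
  unfold code at h
  rcases lt_trichotomy (idx u) (idx x) with h1 | h1 | h1
  · have := lexlt (h0 v) (hn v) (h0 y) h1
    omega
  · refine ⟨hinj h1, hinj ?_⟩
    rw [h1] at h
    omega
  · have := lexlt (h0 y) (hn y) (h0 v) h1
    omega

/-- the slot (along a decreasing staircase) of a shape with bend top right -/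
def slot (n : ℤ) (idx : V → ℤ) : SubV G → ℤ
  | .old u => n * n + idx u
  | .near _ _ _ => 0
  | .mid u v _ => if idx u < idx v then code n idx u v else code n idx v u

/-- the displacement of the bend inside its slot -/
def disp (idx : V → ℤ) : SubV G → ℤ
  | .old _ => 0
  | .near _ _ _ => 0
  | .mid u v _ => if idx u < idx v then 0 else 1

/-- left end of the horizontal part -/
def leftEnd (n : ℤ) (idx : V → ℤ) : SubV G → ℤ
  | .old u => n * idx u + n
  | .near _ _ _ => 0
  | .mid u v _ => code n idx u v + 1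

/-- lower end of the vertical part -/
def lowEnd (n : ℤ) (idx : V → ℤ) : SubV G → ℤ
  | .old u => - (n * idx u) + 1
  | .near _ _ _ => 0
  | .mid u v _ => - code n idx u v + 1

variable (G)

/-- The whole configuration: `near u v` gets a shape with bend bottom left at `(c, -c)`
(`c` the code of `(u, v)`) and long arms; all other vertices get shapes with bend top right. -/
lemma exists_shapes (h0 : ∀ v, 0 ≤ idx v) (hn : ∀ v, idx v < n) :
    ∃ P : SubV G → OneBendPath,
      (∀ u v h, (P (.near u v h)).x = code n idx u v ∧ (P (.near u v h)).y = - code n idx u v ∧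
        (P (.near u v h)).x' = 30 * (n * n) + 30 * n + 30 ∧
        (P (.near u v h)).y' = 30 * (n * n) + 30 * n + 30) ∧
      (∀ a : SubV G, (∀ u v h, a ≠ .near u v h) →
        (P a).x = n * n + 1 + 3 * slot n idx a + disp idx a ∧
        (P a).y = 20 * (n * n) + 20 * n + 20 - 3 * slot n idx a + disp idx a ∧
        (P a).x' = leftEnd n idx a ∧ (P a).y' = lowEnd n idx a) := by
  have H : ∀ a : SubV G, ∃ Q : OneBendPath,
      (∀ u v h, a = .near u v h → Q.x = code n idx u v ∧ Q.y = - code n idx u v ∧
        Q.x' = 30 * (n * n) + 30 * n + 30 ∧ Q.y' = 30 * (n * n) + 30 * n + 30) ∧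
      ((∀ u v h, a ≠ .near u v h) →
        Q.x = n * n + 1 + 3 * slot n idx a + disp idx a ∧
        Q.y = 20 * (n * n) + 20 * n + 20 - 3 * slot n idx a + disp idx a ∧
        Q.x' = leftEnd n idx a ∧ Q.y' = lowEnd n idx a) := by
    intro a
    cases a with
    | old u =>
      have h1 := blk (h0 u) (hn u)
      have h2 := h0 u
      have h3 : 0 ≤ n * n := mul_self_nonneg n
      refine ⟨⟨n * n + 1 + 3 * (n * n + idx u) + 0,
        20 * (n * n) + 20 * n + 20 - 3 * (n * n + idx u) + 0, n * idx u + n,
        - (n * idx u) + 1, Or.inl (by omega)⟩, ?_, ?_⟩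
      · intro x y h hc
        cases hc
      · intro _
        exact ⟨rfl, rfl, rfl, rfl⟩
    | near u v h =>
      have h1 := code_lt h0 hn u v
      have h2 := h0 u
      have h2' := hn u
      have h3 : 0 ≤ n * n := mul_self_nonneg n
      refine ⟨⟨code n idx u v, - code n idx u v, 30 * (n * n) + 30 * n + 30,
        30 * (n * n) + 30 * n + 30, Or.inl (by omega)⟩, ?_, ?_⟩
      · intro x y h hc
        cases hc
        exact ⟨rfl, rfl, rfl, rfl⟩
      · intro hc
        exact absurd rfl (hc u v h)
    | mid u v h =>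
      have h1 := code_lt h0 hn u v
      have h1' := code_nonneg h0 hn u v
      have h1'' := code_nonneg h0 hn v u
      have h3 : 0 ≤ n * n := mul_self_nonneg n
      have hs : 0 ≤ 3 * slot n idx (SubV.mid u v h) + disp idx (SubV.mid u v h) := by
        simp only [slot, disp]
        split_ifs <;> omega
      refine ⟨⟨n * n + 1 + 3 * slot n idx (SubV.mid u v h) + disp idx (SubV.mid u v h),
        20 * (n * n) + 20 * n + 20 - 3 * slot n idx (SubV.mid u v h) + disp idx (SubV.mid u v h),
        code n idx u v + 1, - code n idx u v + 1, Or.inl (by omega)⟩, ?_, ?_⟩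
      · intro x y h hc
        cases hc
      · intro _
        exact ⟨rfl, rfl, rfl, rfl⟩
  choose P hP1 hP2 using H
  exact ⟨P, fun u v h => hP1 _ u v h rfl, hP2⟩

variable {G}

lemma slot_bounds (h0 : ∀ v, 0 ≤ idx v) (hn : ∀ v, idx v < n) (a : SubV G) :
    0 ≤ slot n idx a ∧ slot n idx a < n * n + n + 1 ∧ 0 ≤ disp idx a ∧ disp idx a ≤ 1 ∧
      leftEnd n idx a ≤ n * n + 1 ∧ lowEnd n idx a ≤ 1 := by
  have h3 : 0 ≤ n * n := mul_self_nonneg n
  cases a with
  | old u =>
    have h1 := blk (h0 u) (hn u)
    have h2 := h0 u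
    have h2' := hn u
    have h4 : 0 ≤ n * idx u := by nlinarith
    simp only [slot, disp, leftEnd, lowEnd]
    omega
  | near u v h =>
    have h2 := h0 u
    have h2' := hn u
    simp only [slot, disp, leftEnd, lowEnd]
    omega
  | mid u v h =>
    have h1 := code_lt h0 hn u v
    have h1' := code_nonneg h0 hn u v
    have h2 := code_lt h0 hn v u
    have h2' := code_nonneg h0 hn v u
    have h4 := h0 u
    have h5 := hn u
    simp only [slot, disp, leftEnd, lowEnd]
    split_ifs <;> omega

/-- the statement that the shapes of `a` and `b` behave as required -/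
def Good (P : SubV G → OneBendPath) (a b : SubV G) : Prop :=
  ((¬ SubAdj G a b) ↔ ((P a).carrier ∩ (P b).carrier).Nonempty)

lemma Good.symm {P : SubV G → OneBendPath} {a b : SubV G} (h : Good P a b) : Good P b a := by
  unfold Good at *
  rw [Set.inter_comm, ← h]
  exact not_congr ⟨fun h => (Sub4 G).symm.symm _ _ h, fun h => (Sub4 G).symm.symm _ _ h⟩

lemma slot_lt_good {P : SubV G → OneBendPath} (h0 : ∀ v, 0 ≤ idx v) (hn : ∀ v, idx v < n)
    (hP : ∀ a : SubV G, (∀ u v h, a ≠ .near u v h) →
        (P a).x = n * n + 1 + 3 * slot n idx a + disp idx a ∧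
        (P a).y = 20 * (n * n) + 20 * n + 20 - 3 * slot n idx a + disp idx a ∧
        (P a).x' = leftEnd n idx a ∧ (P a).y' = lowEnd n idx a)
    {a b : SubV G} (ha : ∀ u v h, a ≠ .near u v h) (hb : ∀ u v h, b ≠ .near u v h)
    (hlt : slot n idx a < slot n idx b) : ((P a).carrier ∩ (P b).carrier).Nonempty := by
  have h3 : 0 ≤ n * n := mul_self_nonneg n
  obtain ⟨a1, a2, a3, a4, a5, a6⟩ := slot_bounds h0 hn a
  obtain ⟨b1, b2, b3, b4, b5, b6⟩ := slot_bounds h0 hn b
  obtain ⟨c1, c2, c3, c4⟩ := hP a ha
  obtain ⟨d1, d2, d3, d4⟩ := hP b hb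
  apply meetGG
  · omega
  · omega
  · omega
  · omega

theorem all_good (h0 : ∀ v, 0 ≤ idx v) (hn : ∀ v, idx v < n) (hinj : Function.Injective idx) :
    ∃ P : SubV G → OneBendPath, ∀ a b, a ≠ b → Good P a b := by
  obtain ⟨P, hP1, hP2⟩ := exists_shapes G h0 hn
  have h3 : 0 ≤ n * n := mul_self_nonneg n
  refine ⟨P, ?_⟩
  -- two shapes with bend bottom left
  have nearnear : ∀ u v h x y h', (SubV.near u v h : SubV G) ≠ .near x y h' →
      Good P (.near u v h) (.near x y h') := by
    intro u v h x y h' hne
    have hnadj : ¬ SubAdj G (.near u v h) (.near x y h') := by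
      intro hc
      cases hc
    have hcode : code n idx u v ≠ code n idx x y := by
      intro hc
      obtain ⟨rfl, rfl⟩ := code_inj h0 hn hinj hc
      exact hne rfl
    refine ⟨fun _ => ?_, fun _ => hnadj⟩
    have l1 := code_nonneg h0 hn u v
    have l2 := code_nonneg h0 hn x y
    have l3 := code_lt h0 hn u v
    have l4 := code_lt h0 hn x y
    have l5 := h0 u
    have l6 := hn u
    rcases lt_or_gt_of_ne hcode with hlt | hlt
    · exact meetLL (hP1 u v h) (hP1 x y h') l1 hlt (by omega)
    · rw [Set.inter_comm]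
      exact meetLL (hP1 x y h') (hP1 u v h) l2 hlt (by omega)
  -- bend bottom left against bend top right
  have nearother : ∀ u v h b, (∀ x y h', b ≠ SubV.near x y h') →
      (((P (.near u v h)).carrier ∩ (P b).carrier).Nonempty ↔
        (lowEnd n idx b ≤ - code n idx u v ∨ leftEnd n idx b ≤ code n idx u v)) := by
    intro u v h b hb
    obtain ⟨b1, b2, b3, b4, b5, b6⟩ := slot_bounds h0 hn b
    have l1 := code_nonneg h0 hn u v
    have l3 := code_lt h0 hn u v
    have l5 := h0 u
    have l6 := hn u
    apply meetLG (hP1 u v h) (hP2 b hb) l1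
    · omega
    · omega
    · omega
    · omega
    · omega
  have nearold : ∀ u v h w, Good P (.near u v h) (.old w) := by
    intro u v h w
    unfold Good
    rw [nearother u v h (.old w) (by intro x y h' hc; cases hc)]
    simp only [lowEnd, leftEnd, code]
    have l1 := h0 v
    have l2 := hn v
    by_cases hw : w = u
    · subst hw
      have : SubAdj G (.near w v h) (.old w) := .no w v h
      constructor
      · intro hc; exact absurd this hc
      · intro hc; omega
    · have : ¬ SubAdj G (.near u v h) (.old w) := by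
        intro hc
        cases hc
        exact hw rfl
      refine ⟨fun _ => ?_, fun _ => this⟩
      rcases lt_trichotomy (idx u) (idx w) with hlt | hlt | hlt
      · left
        have := lexlt l1 l2 le_rfl hlt
        omega
      · exact absurd (hinj hlt).symm hw
      · right
        have : n * idx w + n ≤ n * idx u := by
          have e1 := h0 w
          nlinarith
        omega
  have nearmid : ∀ u v h x y h', Good P (.near u v h) (.mid x y h') := by
    intro u v h x y h'
    unfold Good
    rw [nearother u v h (.mid x y h') (by intro x y h' hc; cases hc)]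
    simp only [lowEnd, leftEnd]
    by_cases hc : code n idx u v = code n idx x y
    · have hc' := hc
      obtain ⟨rfl, rfl⟩ := code_inj h0 hn hinj hc
      have : SubAdj G (.near u v h) (.mid u v h') := .nm u v h
      constructor
      · intro hc; exact absurd this hc
      · intro hc; omega
    · have : ¬ SubAdj G (.near u v h) (.mid x y h') := by
        intro hadj
        cases hadj
        exact hc rfl
      refine ⟨fun _ => ?_, fun _ => this⟩
      omega
  -- two shapes with bend top right
  have oldold : ∀ u v, (SubV.old u : SubV G) ≠ .old v → Good P (.old u) (.old v) := by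
    intro u v hne
    have hnadj : ¬ SubAdj G (.old u) (.old v) := by
      intro hc
      cases hc
    refine ⟨fun _ => ?_, fun _ => hnadj⟩
    rcases lt_trichotomy (idx u) (idx v) with hlt | hlt | hlt
    · apply slot_lt_good h0 hn hP2 (by intro x y h' hc; cases hc) (by intro x y h' hc; cases hc)
      simp only [slot]
      omega
    · exact absurd (by rw [hinj hlt]) hne
    · rw [Set.inter_comm]
      apply slot_lt_good h0 hn hP2 (by intro x y h' hc; cases hc) (by intro x y h' hc; cases hc)
      simp only [slot]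
      omega
  have midold : ∀ u v h w, Good P (.mid u v h) (.old w) := by
    intro u v h w
    have hnadj : ¬ SubAdj G (.mid u v h) (.old w) := by
      intro hc
      cases hc
    refine ⟨fun _ => ?_, fun _ => hnadj⟩
    apply slot_lt_good h0 hn hP2 (by intro x y h' hc; cases hc) (by intro x y h' hc; cases hc)
    have l1 := code_lt h0 hn u v
    have l2 := code_lt h0 hn v u
    have l3 := h0 w
    simp only [slot]
    split_ifs <;> omega
  have midmid : ∀ u v h x y h', (SubV.mid u v h : SubV G) ≠ .mid x y h' →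
      Good P (.mid u v h) (.mid x y h') := by
    intro u v h x y h' hne
    by_cases hsw : x = v ∧ y = u
    · obtain ⟨rfl, rfl⟩ := hsw
      have hadj : SubAdj G (.mid y x h) (.mid x y h') := .mm y x h
      have hidx : idx y ≠ idx x := fun hc => h.ne (hinj hc)
      refine ⟨fun hc => absurd hadj hc, fun hc => ?_⟩
      exfalso
      obtain ⟨b1, b2, b3, b4, b5, b6⟩ := slot_bounds h0 hn (.mid y x h : SubV G)
      obtain ⟨a1, a2, a3, a4, a5, a6⟩ := slot_bounds h0 hn (.mid x y h' : SubV G)
      obtain ⟨c1, c2, c3, c4⟩ := hP2 (.mid y x h) (by intro x y h' hc; cases hc)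
      obtain ⟨d1, d2, d3, d4⟩ := hP2 (.mid x y h') (by intro x y h' hc; cases hc)
      have l1 := h0 x
      have l2 := hn x
      rcases lt_or_gt_of_ne hidx with hlt | hlt
      · have hlt' : ¬ idx x < idx y := by omega
        have e1 : slot n idx (.mid y x h : SubV G) = slot n idx (.mid x y h' : SubV G) := by
          simp only [slot, hlt, hlt', if_true, if_false]
        have e2 : disp idx (.mid y x h : SubV G) = 0 := by
          simp only [disp, hlt, if_true]
        have e3 : disp idx (.mid x y h' : SubV G) = 1 := by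
          simp only [disp, hlt', if_false]
        exact disjGG (by omega) (by omega) (by omega) (by omega) hc
      · have hlt' : ¬ idx y < idx x := by omega
        have e1 : slot n idx (.mid y x h : SubV G) = slot n idx (.mid x y h' : SubV G) := by
          simp only [slot, hlt, hlt', if_true, if_false]
        have e2 : disp idx (.mid x y h' : SubV G) = 0 := by
          simp only [disp, hlt, if_true]
        have e3 : disp idx (.mid y x h : SubV G) = 1 := by
          simp only [disp, hlt', if_false]
        rw [Set.inter_comm] at hc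
        exact disjGG (by omega) (by omega) (by omega) (by omega) hc
    · have hnadj : ¬ SubAdj G (.mid u v h) (.mid x y h') := by
        intro hc
        cases hc
        exact hsw ⟨rfl, rfl⟩
      have hslot : slot n idx (.mid u v h : SubV G) ≠ slot n idx (.mid x y h' : SubV G) := by
        intro hc
        simp only [slot] at hc
        split_ifs at hc with h1 h2 h2
        · obtain ⟨rfl, rfl⟩ := code_inj h0 hn hinj hc
          exact hne rfl
        · obtain ⟨rfl, rfl⟩ := code_inj h0 hn hinj hc
          exact hsw ⟨rfl, rfl⟩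
        · obtain ⟨rfl, rfl⟩ := code_inj h0 hn hinj hc
          exact hsw ⟨rfl, rfl⟩
        · obtain ⟨rfl, rfl⟩ := code_inj h0 hn hinj hc
          exact hne rfl
      refine ⟨fun _ => ?_, fun _ => hnadj⟩
      rcases lt_or_gt_of_ne hslot with hlt | hlt
      · exact slot_lt_good h0 hn hP2 (by intro x y h' hc; cases hc)
          (by intro x y h' hc; cases hc) hlt
      · rw [Set.inter_comm]
        exact slot_lt_good h0 hn hP2 (by intro x y h' hc; cases hc)
          (by intro x y h' hc; cases hc) hlt
  intro a b hab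
  cases a with
  | old u =>
    cases b with
    | old v => exact oldold u v hab
    | near x y h' => exact (nearold x y h' u).symm
    | mid x y h' => exact (midold x y h' u).symm
  | near u v h =>
    cases b with
    | old w => exact nearold u v h w
    | near x y h' => exact nearnear u v h x y h' hab
    | mid x y h' => exact nearmid u v h x y h'
  | mid u v h =>
    cases b with
    | old w => exact midold u v h w
    | near x y h' => exact (nearmid x y h' u v h).symm
    | mid x y h' => exact midmid u v h x y h' hab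

end Rep

/-- Every finite graph `G`, planar or not, has an even subdivision `G'` (each edge is subdivided by
four new vertices) whose complement is a `B₁`-VPG-graph. -/
theorem result (V : Type) [Finite V] (G : SimpleGraph V) :
    ∃ (V' : Type) (_ : Finite V') (G' : SimpleGraph V'),
      Nonempty (EvenSubdivision G G') ∧ IsB1VPG G'ᶜ := by
  obtain ⟨n, ⟨e⟩⟩ := Finite.exists_equiv_fin V
  obtain ⟨P, hP⟩ := all_good (G := G) (n := n) (idx := fun v => ((e v : ℕ) : ℤ))
    (fun v => by positivity) (fun v => by exact_mod_cast (e v).2)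
    (fun u v h => by
      simp only at h
      have : (e u : ℕ) = (e v : ℕ) := by exact_mod_cast h
      exact e.injective (Fin.ext this))
  refine ⟨SubV G, (sub4Even G).finite, Sub4 G, ⟨sub4Even G⟩, P, ?_⟩
  intro a b hab
  have h1 : (¬ SubAdj G a b) ↔ ((P a).carrier ∩ (P b).carrier).Nonempty := hP a b hab
  rw [SimpleGraph.compl_adj, ← h1]
  exact ⟨fun h => h.2, fun h => ⟨hab, h⟩⟩

end Pool.Agent.Results.MP_401231_co.EvenSubdivB1VPG
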