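import Mathlib

set_option autoImplicit false

namespace Pool.Agent.Results.MP_401231_co.NoLSubdivision

/-- `G` is planar: it can be drawn in the plane with distinct points `f v` for its vertices and,
for every edge `uv`, a simple arc `c u v` (a continuous injective image of `[0,1]`; `c v u` is the
same arc run backwards) from `f u` to `f v`, such that the arc of an edge contains no vertex point
except its two ends, and the arcs of two different edges meet only in vertex points. -/
def IsPlanar {V : Type*} (G : SimpleGraph V) : Prop :=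
  ∃ (f : V → ℝ × ℝ) (c : V → V → ℝ → ℝ × ℝ),
    Function.Injective f ∧
    (∀ u v, G.Adj u v → ContinuousOn (c u v) (Set.Icc 0 1) ∧ Set.InjOn (c u v) (Set.Icc 0 1) ∧
      c u v 0 = f u ∧ c u v 1 = f v) ∧
    (∀ u v, G.Adj u v → ∀ t ∈ Set.Icc (0 : ℝ) 1, c v u t = c u v (1 - t)) ∧
    (∀ u v w, G.Adj u v → f w ∈ c u v '' Set.Icc 0 1 → w = u ∨ w = v) ∧
    (∀ u v x y, G.Adj u v → G.Adj x y → s(u, v) ≠ s(x, y) →
      ∀ z ∈ c u v '' Set.Icc 0 1, z ∈ c x y '' Set.Icc 0 1 → ∃ w, z = f w)

/-- `G'` is (via the given data) an even subdivision of `G`: the edge `uv` of `G` is replaced by a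
path `pos u v 0 = vert u, pos u v 1, …, pos u v (m u v + 1) = vert v` whose `m u v` internal
vertices are new; `m u v` is even (zero is allowed, and it may differ from edge to edge). -/
structure EvenSubdivision {V V' : Type*} (G : SimpleGraph V) (G' : SimpleGraph V') where
  /-- the copy in `G'` of a vertex of `G` -/
  vert : V → V'
  /-- the number of new internal vertices on the edge `uv` -/
  m : V → V → ℕ
  /-- `pos u v i` is the `i`-th vertex of the path from `vert u` to `vert v` replacing `uv` -/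
  pos : V → V → ℕ → V'
  vert_inj : Function.Injective vert
  even_m : ∀ u v, G.Adj u v → Even (m u v)
  pos_zero : ∀ u v, G.Adj u v → pos u v 0 = vert u
  pos_last : ∀ u v, G.Adj u v → pos u v (m u v + 1) = vert v
  /-- the path for `vu` is the path for `uv` run backwards -/
  m_symm : ∀ u v, G.Adj u v → m v u = m u v
  pos_symm : ∀ u v i, G.Adj u v → i ≤ m u v + 1 → pos v u (m u v + 1 - i) = pos u v i
  /-- internal vertices are not copies of vertices of `G` -/
  new_ne_old : ∀ u v i w, G.Adj u v → 1 ≤ i → i ≤ m u v → pos u v i ≠ vert w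
  /-- internal vertices are distinct from each other -/
  new_inj : ∀ u v i x y j, G.Adj u v → G.Adj x y → 1 ≤ i → i ≤ m u v → 1 ≤ j → j ≤ m x y →
    pos u v i = pos x y j → (x = u ∧ y = v ∧ j = i) ∨ (x = v ∧ y = u ∧ j = m u v + 1 - i)
  /-- there are no other vertices -/
  covers : ∀ z, (∃ w, z = vert w) ∨ ∃ u v i, G.Adj u v ∧ 1 ≤ i ∧ i ≤ m u v ∧ z = pos u v i
  /-- the edges of `G'` are exactly the edges of these paths -/
  adj_iff : ∀ a b, G'.Adj a b ↔
    ∃ u v i, G.Adj u v ∧ i ≤ m u v ∧ a = pos u v i ∧ b = pos u v (i + 1)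

/-- An L-shape: corner `(x, y)`, a vertical arm of length `h > 0` going up from the corner and a
horizontal arm of length `w > 0` going right from the corner. -/
structure LShape where
  x : ℝ
  y : ℝ
  w : ℝ
  h : ℝ
  w_pos : 0 < w
  h_pos : 0 < h

/-- The points of an L-shape. -/
def LShape.carrier (S : LShape) : Set (ℝ × ℝ) :=
  {p | p.1 = S.x ∧ S.y ≤ p.2 ∧ p.2 ≤ S.y + S.h} ∪ {p | p.2 = S.y ∧ S.x ≤ p.1 ∧ p.1 ≤ S.x + S.w}

/-- `H` is an `{L}`-graph: the vertices can be assigned L-shapes so that two distinct vertices are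
adjacent exactly when their shapes intersect. -/
def IsLGraph {V : Type*} (H : SimpleGraph V) : Prop :=
  ∃ S : V → LShape, ∀ a b, a ≠ b →
    (H.Adj a b ↔ ((S a).carrier ∩ (S b).carrier).Nonempty)

/-! ### Geometry of L-shapes -/

/-- strict dominance of corners -/
def Dom (S T : LShape) : Prop := S.x < T.x ∧ S.y < T.y

lemma disj_of_dom {S T : LShape} (h : Dom S T) : ¬ (S.carrier ∩ T.carrier).Nonempty := by
  rintro ⟨p, hp, hq⟩
  obtain ⟨h1, h2⟩ := h
  rcases hp with ⟨a1, a2, a3⟩ | ⟨a1, a2, a3⟩ <;> rcases hq with ⟨b1, b2, b3⟩ | ⟨b1, b2, b3⟩ <;>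
    linarith

lemma disj_of_right {S T : LShape} (h : S.x + S.w < T.x) : ¬ (S.carrier ∩ T.carrier).Nonempty := by
  rintro ⟨p, hp, hq⟩
  have := S.w_pos
  rcases hp with ⟨a1, a2, a3⟩ | ⟨a1, a2, a3⟩ <;> rcases hq with ⟨b1, b2, b3⟩ | ⟨b1, b2, b3⟩ <;>
    linarith

lemma disj_of_top {S T : LShape} (h : S.y + S.h < T.y) : ¬ (S.carrier ∩ T.carrier).Nonempty := by
  rintro ⟨p, hp, hq⟩
  have := S.h_pos
  rcases hp with ⟨a1, a2, a3⟩ | ⟨a1, a2, a3⟩ <;> rcases hq with ⟨b1, b2, b3⟩ | ⟨b1, b2, b3⟩ <;>
    linarith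

lemma meet {S T : LShape} (h1 : S.x ≤ T.x) (h2 : T.y ≤ S.y) (h3 : T.x ≤ S.x + S.w)
    (h4 : S.y ≤ T.y + T.h) : (S.carrier ∩ T.carrier).Nonempty :=
  ⟨(T.x, S.y), Or.inr ⟨rfl, h1, h3⟩, Or.inl ⟨rfl, h2, h4⟩⟩

lemma dom_of_disj {S T : LShape} (h : ¬ (S.carrier ∩ T.carrier).Nonempty)
    (hR : ¬ S.x + S.w < T.x) (hR' : ¬ T.x + T.w < S.x) (hT : ¬ S.y + S.h < T.y)
    (hT' : ¬ T.y + T.h < S.y) : Dom S T ∨ Dom T S := by
  have hs : ¬ (T.carrier ∩ S.carrier).Nonempty := by rwa [Set.inter_comm]
  push Not at hR hR' hT hT'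
  rcases lt_trichotomy S.x T.x with hx | hx | hx
  · rcases lt_or_ge S.y T.y with hy | hy
    · exact Or.inl ⟨hx, hy⟩
    · exact absurd (meet hx.le hy hR hT') h
  · rcases lt_or_ge S.y T.y with hy | hy
    · exact absurd (meet hx.ge hy.le hR' hT) hs
    · exact absurd (meet hx.le hy hR hT') h
  · rcases lt_or_ge T.y S.y with hy | hy
    · exact Or.inr ⟨hx, hy⟩
    · exact absurd (meet hx.le hy hR' hT) hs

/-! ### The graph: three disjoint pentagons -/

/-- Three disjoint 5-cycles. -/
def pentagons : SimpleGraph (Fin 3 × ZMod 5) where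
  Adj u v := u.1 = v.1 ∧ (v.2 = u.2 + 1 ∨ u.2 = v.2 + 1)
  symm := ⟨fun u v h => ⟨h.1.symm, h.2.symm⟩⟩
  loopless := ⟨fun u h => by
    have key : ∀ a : ZMod 5, a ≠ a + 1 := by decide
    rcases h.2 with h | h <;> exact key _ h⟩

lemma triangle_free : ∀ u v w, pentagons.Adj u v → pentagons.Adj v w → pentagons.Adj u w → False := by
  rintro ⟨a, i⟩ ⟨b, j⟩ ⟨c, k⟩ ⟨-, h1⟩ ⟨-, h2⟩ ⟨-, h3⟩
  simp only at h1 h2 h3
  revert i j k
  decide

/-! ### Properties of even subdivisions -/

section Sub

variable {V V' : Type*} {G : SimpleGraph V} {G' : SimpleGraph V'}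

lemma EvenSubdivision.adj_pos (E : EvenSubdivision G G') {u v : V} (h : G.Adj u v) {i : ℕ}
    (hi : i ≤ E.m u v) : G'.Adj (E.pos u v i) (E.pos u v (i + 1)) :=
  (E.adj_iff _ _).2 ⟨u, v, i, h, hi, rfl, rfl⟩

lemma EvenSubdivision.finite [Finite V] (E : EvenSubdivision G G') : Finite V' := by
  have : (Set.univ : Set V') ⊆
      Set.range E.vert ∪ ⋃ p : V × V, (E.pos p.1 p.2) '' Set.Iic (E.m p.1 p.2) := by
    intro z _
    rcases E.covers z with ⟨w, rfl⟩ | ⟨u, v, i, _, _, hi, rfl⟩
    · exact Or.inl ⟨w, rfl⟩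
    · exact Or.inr (Set.mem_iUnion.2 ⟨(u, v), ⟨i, hi, rfl⟩⟩)
  have hfin : (Set.range E.vert ∪ ⋃ p : V × V, (E.pos p.1 p.2) '' Set.Iic (E.m p.1 p.2)).Finite := by
    apply Set.Finite.union (Set.finite_range _)
    apply Set.finite_iUnion
    intro p
    exact (Set.finite_Iic _).image _
  exact Set.finite_univ_iff.1 (hfin.subset this)

/-- Folding the path that replaces `uv` onto the edge `uv`: even positions go to `u`, odd ones
to `v`. -/
def EvenSubdivision.Fold (E : EvenSubdivision G G') (z : V') (w : V) : Prop :=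
  ∃ u v i, G.Adj u v ∧ i ≤ E.m u v + 1 ∧ z = E.pos u v i ∧ w = if Even i then u else v

lemma EvenSubdivision.fold_vert (E : EvenSubdivision G G') {u v : V} (h : G.Adj u v) {i : ℕ}
    (hi : i ≤ E.m u v + 1) (hi' : ¬ (1 ≤ i ∧ i ≤ E.m u v)) :
    E.pos u v i = E.vert (if Even i then u else v) := by
  rcases Nat.eq_zero_or_pos i with rfl | hpos
  · simpa using E.pos_zero u v h
  · have : i = E.m u v + 1 := by omega
    subst this
    have h1 : ¬ Even (E.m u v + 1) := by
      rw [Nat.even_add_one, not_not]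
      exact E.even_m u v h
    rw [if_neg h1]
    exact E.pos_last u v h

lemma EvenSubdivision.fold_unique (E : EvenSubdivision G G') {z : V'} {w w' : V}
    (h : E.Fold z w) (h' : E.Fold z w') : w = w' := by
  obtain ⟨u, v, i, huv, hi, rfl, rfl⟩ := h
  obtain ⟨x, y, j, hxy, hj, he, rfl⟩ := h'
  by_cases h1 : 1 ≤ i ∧ i ≤ E.m u v
  · by_cases h2 : 1 ≤ j ∧ j ≤ E.m x y
    · rcases E.new_inj u v i x y j huv hxy h1.1 h1.2 h2.1 h2.2 he with
        ⟨rfl, rfl, rfl⟩ | ⟨rfl, rfl, hj⟩
      · rfl
      · have hm := E.even_m _ _ huv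
        by_cases hev : Even i
        · have : ¬ Even j := by
            rw [hj]
            intro hc
            have h3 := (hc.add hev)
            rw [Nat.sub_add_cancel (by omega), Nat.even_add_one] at h3
            exact h3 hm
          rw [if_pos hev, if_neg this]
        · have : Even j := by
            rw [hj]
            by_contra hc
            rw [Nat.not_even_iff_odd] at hc hev
            have h3 := hc.add_odd hev
            rw [Nat.sub_add_cancel (by omega), Nat.even_add_one] at h3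
            exact h3 hm
          rw [if_neg hev, if_pos this]
    · rw [E.fold_vert hxy hj h2] at he
      exact absurd he (E.new_ne_old _ _ _ _ huv h1.1 h1.2)
  · rw [E.fold_vert huv hi h1] at he
    by_cases h2 : 1 ≤ j ∧ j ≤ E.m x y
    · exact absurd he.symm (E.new_ne_old _ _ _ _ hxy h2.1 h2.2)
    · rw [E.fold_vert hxy hj h2] at he
      exact E.vert_inj he

lemma EvenSubdivision.fold_adj (E : EvenSubdivision G G') {a b : V'} (h : G'.Adj a b) :
    ∃ w w', E.Fold a w ∧ E.Fold b w' ∧ G.Adj w w' := by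
  obtain ⟨u, v, i, huv, hi, rfl, rfl⟩ := (E.adj_iff a b).1 h
  refine ⟨_, _, ⟨u, v, i, huv, by omega, rfl, rfl⟩, ⟨u, v, i + 1, huv, by omega, rfl, rfl⟩, ?_⟩
  by_cases hev : Even i
  · have : ¬ Even (i + 1) := by rw [Nat.even_add_one, not_not]; exact hev
    rw [if_pos hev, if_neg this]
    exact huv
  · have : Even (i + 1) := by rw [Nat.even_add_one]; exact hev
    rw [if_neg hev, if_pos this]
    exact huv.symm

end Sub

theorem no_L {V' : Type*} {G' : SimpleGraph V'} (E : EvenSubdivision pentagons G') :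
    ¬ IsLGraph G'ᶜ := by
  classical
  rintro ⟨S, hS⟩
  have hfin : Finite V' := E.finite
  have hne : Nonempty V' := ⟨E.vert (0, 0)⟩
  -- disjoint shapes of distinct vertices belong to adjacent vertices of `G'`
  have hdisj : ∀ a b, a ≠ b → ¬ ((S a).carrier ∩ (S b).carrier).Nonempty → G'.Adj a b := by
    intro a b hab h
    by_contra hcon
    exact h ((hS a b hab).1 ((SimpleGraph.compl_adj _ _ _).2 ⟨hab, hcon⟩))
  have hdisj' : ∀ a b, G'.Adj a b → ¬ ((S a).carrier ∩ (S b).carrier).Nonempty := by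
    intro a b hab h
    exact ((SimpleGraph.compl_adj _ _ _).1 ((hS a b hab.ne).2 h)).2 hab
  obtain ⟨z, hz⟩ := Finite.exists_max (fun v => (S v).x)
  obtain ⟨t, ht⟩ := Finite.exists_max (fun v => (S v).y)
  -- the component of a vertex of `G'`
  have hcomp : ∃ comp : V' → Fin 3, (∀ v w, E.Fold v w → comp v = w.1) := by
    refine ⟨fun v => if h : ∃ w, E.Fold v w then (h.choose).1 else 0, ?_⟩
    intro v w hw
    have h : ∃ w, E.Fold v w := ⟨w, hw⟩
    simp only [dif_pos h]
    rw [E.fold_unique h.choose_spec hw]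
  obtain ⟨comp, hcomp⟩ := hcomp
  have comp_adj : ∀ a b, G'.Adj a b → comp a = comp b := by
    intro a b hab
    obtain ⟨w, w', h1, h2, h3⟩ := E.fold_adj hab
    rw [hcomp a w h1, hcomp b w' h2]
    exact h3.1
  have tri : ∀ a b c, G'.Adj a b → G'.Adj b c → G'.Adj a c → False := by
    intro a b c hab hbc hac
    obtain ⟨w1, w2, h1, h2, h3⟩ := E.fold_adj hab
    obtain ⟨w3, w4, h4, h5, h6⟩ := E.fold_adj hbc
    obtain ⟨w5, w6, h7, h8, h9⟩ := E.fold_adj hac
    have e1 := E.fold_unique h2 h4
    have e2 := E.fold_unique h5 h8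
    have e3 := E.fold_unique h1 h7
    subst e1 e2 e3
    exact triangle_free _ _ _ h3 h6 h9
  obtain ⟨k, hk1, hk2⟩ : ∃ k : Fin 3, k ≠ comp z ∧ k ≠ comp t := by
    generalize comp z = p
    generalize comp t = q
    revert p q
    decide
  -- in component `k`, adjacency in `G'` means dominance of corners
  have hright : ∀ a b, comp a = k → ¬ (S a).x + (S a).w < (S b).x := by
    intro a b ha h
    have h1 : (S a).x + (S a).w < (S z).x := lt_of_lt_of_le h (hz b)
    have h2 : a ≠ z := by
      rintro rfl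
      have := (S a).w_pos
      linarith
    have h3 := comp_adj a z (hdisj a z h2 (disj_of_right h1))
    exact hk1 (by rw [← ha, h3])
  have htop : ∀ a b, comp a = k → ¬ (S a).y + (S a).h < (S b).y := by
    intro a b ha h
    have h1 : (S a).y + (S a).h < (S t).y := lt_of_lt_of_le h (ht b)
    have h2 : a ≠ t := by
      rintro rfl
      have := (S a).h_pos
      linarith
    have h3 := comp_adj a t (hdisj a t h2 (disj_of_top h1))
    exact hk2 (by rw [← ha, h3])
  have hdom : ∀ a b, comp a = k → G'.Adj a b → Dom (S a) (S b) ∨ Dom (S b) (S a) := by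
    intro a b ha hab
    have hb : comp b = k := by rw [← comp_adj a b hab]; exact ha
    exact dom_of_disj (hdisj' a b hab) (hright a b ha) (hright b a hb) (htop a b ha) (htop b a hb)
  -- the two-colouring of component `k`
  obtain ⟨c, hcdef⟩ : ∃ c : V' → Prop, ∀ a, c a ↔ ∃ b, G'.Adj a b ∧ Dom (S a) (S b) :=
    ⟨_, fun a => Iff.rfl⟩
  have hc_aux : ∀ a b, G'.Adj a b → Dom (S a) (S b) → c a ∧ ¬ c b := by
    intro a b hab hd
    rw [hcdef, hcdef]
    refine ⟨⟨b, hab, hd⟩, ?_⟩
    rintro ⟨d, hbd, hd'⟩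
    have hdd : Dom (S a) (S d) := ⟨hd.1.trans hd'.1, hd.2.trans hd'.2⟩
    have had : a ≠ d := by
      rintro rfl
      exact lt_irrefl _ hdd.1
    exact tri a b d hab hbd (hdisj a d had (disj_of_dom hdd))
  have hc : ∀ a b, comp a = k → G'.Adj a b → (c a ↔ ¬ c b) := by
    intro a b ha hab
    rcases hdom a b ha hab with h | h
    · have := hc_aux a b hab h
      exact ⟨fun _ => this.2, fun _ => this.1⟩
    · have := hc_aux b a hab.symm h
      exact ⟨fun h1 => absurd h1 this.2, fun h1 => absurd this.1 h1⟩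
  -- alternate along the paths
  have hpath : ∀ u v, pentagons.Adj u v → u.1 = k → (c (E.vert u) ↔ ¬ c (E.vert v)) := by
    intro u v huv hu
    have key : ∀ i, i ≤ E.m u v + 1 → (c (E.pos u v i) ↔ (Even i ↔ c (E.vert u))) := by
      intro i
      induction i with
      | zero =>
        intro _
        rw [E.pos_zero u v huv]
        simp
      | succ i ih =>
        intro hi
        have hci : comp (E.pos u v i) = k := by
          rw [hcomp _ _ ⟨u, v, i, huv, by omega, rfl, rfl⟩]
          by_cases hev : Even i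
          · rw [if_pos hev]; exact hu
          · rw [if_neg hev, ← huv.1]; exact hu
        have h1 := hc _ _ hci (E.adj_pos huv (i := i) (by omega))
        have h2 := ih (by omega)
        rw [Nat.even_add_one]
        clear * - h1 h2
        generalize c (E.pos u v i) = P at h1 h2
        generalize c (E.pos u v (i + 1)) = Q at h1
        generalize c (E.vert u) = R at h2 ⊢
        generalize Even i = X at h2 ⊢
        by_cases hX : X <;> by_cases hP : P <;> by_cases hQ : Q <;> by_cases hR : R <;> simp_all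
    have h1 := key (E.m u v + 1) le_rfl
    rw [E.pos_last u v huv, Nat.even_add_one] at h1
    have h2 := E.even_m u v huv
    clear * - h1 h2
    generalize c (E.vert u) = R at h1
    generalize c (E.vert v) = Q at h1
    by_cases hQ : Q <;> by_cases hR : R <;> simp_all
  have e0 := hpath (k, 0) (k, 1) ⟨rfl, Or.inl (show (1 : ZMod 5) = 0 + 1 by decide)⟩ rfl
  have e1 := hpath (k, 1) (k, 2) ⟨rfl, Or.inl (show (2 : ZMod 5) = 1 + 1 by decide)⟩ rfl
  have e2 := hpath (k, 2) (k, 3) ⟨rfl, Or.inl (show (3 : ZMod 5) = 2 + 1 by decide)⟩ rfl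
  have e3 := hpath (k, 3) (k, 4) ⟨rfl, Or.inl (show (4 : ZMod 5) = 3 + 1 by decide)⟩ rfl
  have e4 := hpath (k, 4) (k, 0) ⟨rfl, Or.inl (show (0 : ZMod 5) = 4 + 1 by decide)⟩ rfl
  clear * - e0 e1 e2 e3 e4
  generalize c (E.vert (k, 0)) = P0 at e0 e4
  generalize c (E.vert (k, 1)) = P1 at e0 e1
  generalize c (E.vert (k, 2)) = P2 at e1 e2
  generalize c (E.vert (k, 3)) = P3 at e2 e3
  generalize c (E.vert (k, 4)) = P4 at e3 e4
  by_cases h0 : P0 <;> by_cases h1 : P1 <;> simp_all

/-! ### The three pentagons form a planar graph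

The 15 vertices are placed on the parabola, all edges are straight segments. -/

/-- the abscissa of a vertex -/
def N (u : Fin 3 × ZMod 5) : ℤ := 5 * (u.1.val : ℤ) + (u.2.val : ℤ)

lemma N_inj : ∀ u v : Fin 3 × ZMod 5, N u = N v → u = v := by decide

instance : DecidableRel pentagons.Adj := fun u v => by
  unfold pentagons; simp only; infer_instance

set_option maxRecDepth 100000 in
lemma N_sign : ∀ u v : Fin 3 × ZMod 5, pentagons.Adj u v → ∀ x y : Fin 3 × ZMod 5,
    pentagons.Adj x y → 0 ≤ ((N x - N u) * (N x - N v)) * ((N y - N u) * (N y - N v)) := by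
  decide

lemma arith {A B s : ℝ} (h : (1 - s) * A + s * B = 0) (h0 : 0 ≤ s) (h1 : s ≤ 1) (hAB : 0 ≤ A * B)
    (hne : ¬ (A = 0 ∧ B = 0)) : s = 0 ∨ s = 1 := by
  by_contra hcon
  push Not at hcon
  have hs0 : 0 < s := lt_of_le_of_ne h0 (Ne.symm hcon.1)
  have hs1 : 0 < 1 - s := by
    have := lt_of_le_of_ne h1 hcon.2
    linarith
  apply hne
  rcases lt_trichotomy A 0 with hA | hA | hA
  · have hB : B ≤ 0 := by
      by_contra hB
      push Not at hB
      nlinarith
    nlinarith [mul_pos hs1 (neg_pos.2 hA), mul_nonneg hs0.le (neg_nonneg.2 hB)]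
  · refine ⟨hA, ?_⟩
    rw [hA, mul_zero, zero_add] at h
    rcases mul_eq_zero.1 h with h | h
    · exact absurd h hs0.ne'
    · exact h
  · have hB : 0 ≤ B := by
      by_contra hB
      push Not at hB
      nlinarith
    nlinarith [mul_pos hs1 hA, mul_nonneg hs0.le hB]

theorem planar_pentagons : IsPlanar pentagons := by
  have Ninj : ∀ u v : Fin 3 × ZMod 5, (N u : ℝ) = N v → u = v := by
    intro u v h
    exact N_inj u v (by exact_mod_cast h)
  refine ⟨fun u => ((N u : ℝ), (N u : ℝ) ^ 2),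
    fun u v t => ((1 - t) * N u + t * N v, (1 - t) * (N u : ℝ) ^ 2 + t * (N v : ℝ) ^ 2),
    ?_, ?_, ?_, ?_, ?_⟩
  · intro u v h
    exact Ninj u v (Prod.ext_iff.1 h).1
  · intro u v huv
    refine ⟨?_, ?_, ?_, ?_⟩
    · apply Continuous.continuousOn
      fun_prop
    · intro t _ t' _ h
      have h1 := (Prod.ext_iff.1 h).1
      simp only at h1
      have h2 : ((N v : ℝ) - N u) ≠ 0 := by
        intro h0
        exact huv.ne (Ninj u v (by linarith))
      have h3 : (t - t') * ((N v : ℝ) - N u) = 0 := by linarith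
      rcases mul_eq_zero.1 h3 with h4 | h4
      · linarith
      · exact absurd h4 h2
    · simp
    · simp
  · intro u v _ t _
    simp only [Prod.mk.injEq]
    constructor <;> ring
  · rintro u v w huv ⟨t, -, ht⟩
    have h1 := (Prod.ext_iff.1 ht).1
    have h2 := (Prod.ext_iff.1 ht).2
    simp only at h1 h2
    have h3 : ((N w : ℝ) - N u) * ((N w : ℝ) - N v) = 0 := by
      have e : ((N w : ℝ) - N u) * ((N w : ℝ) - N v) =
        (N w : ℝ) ^ 2 - (N u + N v) * (N w : ℝ) + N u * N v := by ring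
      rw [e, ← h2, ← h1]
      ring
    rcases mul_eq_zero.1 h3 with h | h
    · left; exact Ninj w u (by linarith)
    · right; exact Ninj w v (by linarith)
  · rintro u v x y huv hxy hne z ⟨t, -, ht⟩ ⟨s, hs, hs'⟩
    have key : (1 - s) * (((N x : ℝ) - N u) * ((N x : ℝ) - N v)) +
        s * (((N y : ℝ) - N u) * ((N y : ℝ) - N v)) = 0 := by
      have h1 := (Prod.ext_iff.1 (ht.trans hs'.symm)).1
      have h2 := (Prod.ext_iff.1 (ht.trans hs'.symm)).2
      simp only at h1 h2
      have e : (1 - s) * (((N x : ℝ) - N u) * ((N x : ℝ) - N v)) +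
          s * (((N y : ℝ) - N u) * ((N y : ℝ) - N v)) =
          ((1 - s) * (N x : ℝ) ^ 2 + s * (N y : ℝ) ^ 2) -
            (N u + N v) * ((1 - s) * (N x : ℝ) + s * (N y : ℝ)) + N u * N v := by ring
      rw [e, ← h2, ← h1]
      ring
    have hsign : (0 : ℝ) ≤ (((N x : ℝ) - N u) * ((N x : ℝ) - N v)) *
        (((N y : ℝ) - N u) * ((N y : ℝ) - N v)) := by
      exact_mod_cast N_sign u v huv x y hxy
    have hnz : ¬ (((N x : ℝ) - N u) * ((N x : ℝ) - N v) = 0 ∧
        ((N y : ℝ) - N u) * ((N y : ℝ) - N v) = 0) := by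
      rintro ⟨h1, h2⟩
      apply hne
      have hxy' := hxy.ne
      rcases mul_eq_zero.1 h1 with h | h <;> rcases mul_eq_zero.1 h2 with h' | h'
      · exact absurd ((Ninj x u (by linarith)).trans (Ninj y u (by linarith)).symm) hxy'
      · rw [Ninj x u (by linarith), Ninj y v (by linarith)]
      · rw [Ninj x v (by linarith), Ninj y u (by linarith), Sym2.eq_swap]
      · exact absurd ((Ninj x v (by linarith)).trans (Ninj y v (by linarith)).symm) hxy'
    rcases arith key hs.1 hs.2 hsign hnz with h | h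
    · refine ⟨x, ?_⟩
      rw [← hs', h]
      simp
    · refine ⟨y, ?_⟩
      rw [← hs', h]
      simp

/-- Sanity check (not used below): every graph is an even subdivision of itself, with no new
vertices. -/
def selfSubdivision {V : Type} (G : SimpleGraph V) : EvenSubdivision G G where
  vert := id
  m := fun _ _ => 0
  pos := fun u v i => if i = 0 then u else v
  vert_inj := fun _ _ h => h
  even_m := fun _ _ _ => by decide
  pos_zero := fun _ _ _ => rfl
  pos_last := fun _ _ _ => rfl
  m_symm := fun _ _ _ => rfl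
  pos_symm := by
    intro u v i _ hi
    have : i = 0 ∨ i = 1 := by omega
    rcases this with rfl | rfl <;> rfl
  new_ne_old := by intro u v i w _ h1 h2; omega
  new_inj := by intro u v i x y j _ _ h1 h2; omega
  covers := fun z => Or.inl ⟨z, rfl⟩
  adj_iff := by
    intro a b
    constructor
    · intro h
      exact ⟨a, b, 0, h, le_rfl, rfl, rfl⟩
    · rintro ⟨u, v, i, h, hi, rfl, rfl⟩
      have : i = 0 := by omega
      subst this
      exact h

/-- There is a (finite) planar graph `G` such that for every even subdivision `G'` of `G` the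
complement of `G'` is not an `{L}`-graph. -/
theorem result : ∃ (V : Type) (_ : Fintype V) (G : SimpleGraph V), IsPlanar G ∧
    ∀ (V' : Type) (G' : SimpleGraph V'), Nonempty (EvenSubdivision G G') → ¬ IsLGraph G'ᶜ :=
  ⟨Fin 3 × ZMod 5, inferInstance, pentagons, planar_pentagons, fun _ _ ⟨E⟩ => no_L E⟩

end Pool.Agent.Results.MP_401231_co.NoLSubdivision
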